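import Mathlib
import Pool.Agent.H709Exc.J_girth_graph

/-!
# Strong arboricity and arboricity differ for graphs of large girth

For every `k ≥ 2` and every `g` there is a finite graph `G` of girth at least `g` with arboricity
`k` and strong arboricity greater than `k`.

Take a graph of girth at least `g` which is not a union of `k` forests and which is edge-minimal
with this property, and delete one edge `uv`. If the rest had a strongly woody colouring with `k`
colours, then `u` and `v` would be joined by a path `P` of colour `0`. Exchange: give `uv` the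
colour `0` and the first edge `f` of `P` the colour `1`. As this is not a woody colouring, the ends
of `f` are joined by a path of colour `1`, and this path is a monochromatic broken cycle.
-/

set_option autoImplicit false

namespace Pool.Agent.Results.MP_8cd00c_co.LargeGirth

open SimpleGraph

/-- The edges of `G` of colour `i`, as a graph on the vertices of `G`. -/
def colourClass {V : Type} (G : SimpleGraph V) (c : Sym2 V → ℕ) (i : ℕ) : SimpleGraph V :=
  SimpleGraph.fromEdgeSet {e | e ∈ G.edgeSet ∧ c e = i}

/-- An edge colouring is woody if every colour class is a forest. -/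
def IsWoody {V : Type} (G : SimpleGraph V) (c : Sym2 V → ℕ) : Prop :=
  ∀ i, (colourClass G c i).IsAcyclic

/-- An edge colouring is strongly woody if for every cycle `p` of `G` and every edge `f` of `p` the
edges of the broken cycle `p - f` do not all have the same colour. -/
def IsStronglyWoody {V : Type} (G : SimpleGraph V) (c : Sym2 V → ℕ) : Prop :=
  ∀ (v : V) (p : G.Walk v v), p.IsCycle → ∀ f ∈ p.edges, ¬ ∃ i, ∀ e ∈ p.edges, e ≠ f → c e = i

/-- The arboricity: the least number `k` such that `G` has a woody colouring with the colours
`0, …, k - 1`. -/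
noncomputable def arb {V : Type} (G : SimpleGraph V) : ℕ :=
  sInf {k | ∃ c : Sym2 V → ℕ, (∀ e ∈ G.edgeSet, c e < k) ∧ IsWoody G c}

/-- The strong arboricity: the least number `k` such that `G` has a strongly woody colouring with
the colours `0, …, k - 1`. -/
noncomputable def strongArb {V : Type} (G : SimpleGraph V) : ℕ :=
  sInf {k | ∃ c : Sym2 V → ℕ, (∀ e ∈ G.edgeSet, c e < k) ∧ IsStronglyWoody G c}

lemma colourClass_adj {V : Type} {G : SimpleGraph V} {c : Sym2 V → ℕ} {i : ℕ} {x y : V} :
    (colourClass G c i).Adj x y ↔ G.Adj x y ∧ c s(x, y) = i := by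
  rw [colourClass, SimpleGraph.fromEdgeSet_adj]
  constructor
  · rintro ⟨⟨h1, h2⟩, -⟩
    exact ⟨h1, h2⟩
  · rintro ⟨h1, h2⟩
    exact ⟨⟨h1, h2⟩, h1.ne⟩

lemma colourClass_le {V : Type} (G : SimpleGraph V) (c : Sym2 V → ℕ) (i : ℕ) :
    colourClass G c i ≤ G := by
  intro x y h
  exact (colourClass_adj.mp h).1

lemma colour_of_mem {V : Type} {G : SimpleGraph V} {c : Sym2 V → ℕ} {i : ℕ} {x y : V}
    (p : (colourClass G c i).Walk x y) {e : Sym2 V} (he : e ∈ p.edges) : c e = i := by
  have h := p.edges_subset_edgeSet he
  induction e using Sym2.ind with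
  | _ a b =>
    exact (colourClass_adj.mp ((SimpleGraph.mem_edgeSet _).mp h)).2

/-- `G` has a woody colouring with the colours `0, …, k - 1`. -/
def WC {V : Type} (k : ℕ) (G : SimpleGraph V) : Prop :=
  ∃ c : Sym2 V → ℕ, (∀ e ∈ G.edgeSet, c e < k) ∧ IsWoody G c

/-- strongly woody colourings are woody -/
lemma woody_of_strongly {V : Type} {G : SimpleGraph V} {c : Sym2 V → ℕ}
    (h : IsStronglyWoody G c) : IsWoody G c := by
  intro i v p hp
  have hp' : (p.mapLe (colourClass_le G c i)).IsCycle := hp.mapLe (colourClass_le G c i)
  have hedges : (p.mapLe (colourClass_le G c i)).edges = p.edges := by simp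
  obtain ⟨f, hf⟩ := List.exists_mem_of_ne_nil p.edges (by
    intro h0
    have h1 := hp.three_le_length
    rw [← SimpleGraph.Walk.length_edges, h0] at h1
    simp at h1)
  refine h v _ hp' f (by rw [hedges]; exact hf) ⟨i, ?_⟩
  intro e he _
  rw [hedges] at he
  exact colour_of_mem p he

/-- The key lemma. -/
lemma key {V : Type} {k : ℕ} (hk : 2 ≤ k) (H : SimpleGraph V) (hH : ¬ WC k H)
    {u v : V} (huv : H.Adj u v) (c : Sym2 V → ℕ)
    (hc : ∀ e ∈ (H.deleteEdges {s(u, v)}).edgeSet, c e < k) :
    ¬ IsStronglyWoody (H.deleteEdges {s(u, v)}) c := by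
  classical
  intro hsw
  set G := H.deleteEdges {s(u, v)} with hG
  have hadj : ∀ x y, G.Adj x y ↔ H.Adj x y ∧ s(x, y) ≠ s(u, v) := by
    intro x y
    rw [hG, SimpleGraph.deleteEdges_adj, Set.mem_singleton_iff]
  have hw := woody_of_strongly hsw
  -- first colouring
  have hr : (colourClass G c 0).Reachable u v := by
    by_contra hnr
    apply hH
    refine ⟨Function.update c s(u, v) 0, ?_, ?_⟩
    · intro e he
      by_cases h : e = s(u, v)
      · subst h
        rw [Function.update_self]
        omega
      · rw [Function.update_of_ne h]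
        apply hc
        rw [hG, SimpleGraph.edgeSet_deleteEdges]
        exact ⟨he, h⟩
    · intro i
      by_cases hi : i = 0
      · subst hi
        refine IsAcyclic.anti ?_ ((hw 0).sup_edge_of_not_reachable hnr)
        intro x y hxy
        obtain ⟨h1, h2⟩ := colourClass_adj.mp hxy
        rw [SimpleGraph.sup_adj]
        by_cases h : s(x, y) = s(u, v)
        · right
          rw [SimpleGraph.edge_adj]
          refine ⟨?_, h1.ne⟩
          rcases Sym2.eq_iff.mp h with ⟨a, b⟩ | ⟨a, b⟩
          · exact Or.inl ⟨a, b⟩
          · exact Or.inr ⟨a, b⟩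
        · left
          rw [Function.update_of_ne h] at h2
          exact colourClass_adj.mpr ⟨(hadj x y).mpr ⟨h1, h⟩, h2⟩
      · refine IsAcyclic.anti ?_ (hw i)
        intro x y hxy
        obtain ⟨h1, h2⟩ := colourClass_adj.mp hxy
        have h : s(x, y) ≠ s(u, v) := by
          intro h
          rw [h, Function.update_self] at h2
          exact hi h2.symm
        rw [Function.update_of_ne h] at h2
        exact colourClass_adj.mpr ⟨(hadj x y).mpr ⟨h1, h⟩, h2⟩
  obtain ⟨P, hP⟩ := hr.exists_isPath
  cases P with
  | nil => exact huv.ne rfl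
  | @cons _ x _ h P' =>
    obtain ⟨hPp, hPu⟩ := (SimpleGraph.Walk.cons_isPath_iff h P').mp hP
    obtain ⟨hGux, hc0⟩ := colourClass_adj.mp h
    have hf : s(u, x) ≠ s(u, v) := ((hadj u x).mp hGux).2
    -- the ends of the edge `u x` are joined in colour `1`
    have hr1 : (colourClass G c 1).Reachable u x := by
      by_contra hnr
      apply hH
      refine ⟨Function.update (Function.update c s(u, v) 0) s(u, x) 1, ?_, ?_⟩
      · intro e he
        by_cases h2 : e = s(u, x)
        · subst h2
          rw [Function.update_self]
          omega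
        · rw [Function.update_of_ne h2]
          by_cases h : e = s(u, v)
          · subst h
            rw [Function.update_self]
            omega
          · rw [Function.update_of_ne h]
            apply hc
            rw [hG, SimpleGraph.edgeSet_deleteEdges]
            exact ⟨he, h⟩
      · intro i
        by_cases hi0 : i = 0
        · subst hi0
          have hbr := (isAcyclic_iff_forall_adj_isBridge.mp (hw 0)) h
          rw [SimpleGraph.isBridge_iff] at hbr
          have hnr0 : ¬ ((colourClass G c 0).deleteEdges {s(u, x)}).Reachable u v := by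
            intro h3
            apply hbr
            have h4 : ((colourClass G c 0).deleteEdges {s(u, x)}).Reachable x v := by
              refine ⟨P'.toDeleteEdges _ ?_⟩
              intro e he
              rw [Set.mem_singleton_iff]
              rintro rfl
              exact hPu (SimpleGraph.Walk.fst_mem_support_of_mem_edges P' he)
            exact h3.trans h4.symm
          refine IsAcyclic.anti ?_ (IsAcyclic.sup_edge_of_not_reachable hnr0
            ((hw 0).anti (SimpleGraph.deleteEdges_le _)))
          intro a b hab
          obtain ⟨h1, h2⟩ := colourClass_adj.mp hab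
          have h5 : s(a, b) ≠ s(u, x) := by
            intro h5
            rw [h5, Function.update_self] at h2
            exact one_ne_zero h2
          rw [Function.update_of_ne h5] at h2
          rw [SimpleGraph.sup_adj]
          by_cases h6 : s(a, b) = s(u, v)
          · right
            rw [SimpleGraph.edge_adj]
            refine ⟨?_, h1.ne⟩
            rcases Sym2.eq_iff.mp h6 with ⟨a, b⟩ | ⟨a, b⟩
            · exact Or.inl ⟨a, b⟩
            · exact Or.inr ⟨a, b⟩
          · left
            rw [Function.update_of_ne h6] at h2
            rw [SimpleGraph.deleteEdges_adj, Set.mem_singleton_iff]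
            exact ⟨colourClass_adj.mpr ⟨(hadj a b).mpr ⟨h1, h6⟩, h2⟩, h5⟩
        · by_cases hi1 : i = 1
          · subst hi1
            refine IsAcyclic.anti ?_ ((hw 1).sup_edge_of_not_reachable hnr)
            intro a b hab
            obtain ⟨h1, h2⟩ := colourClass_adj.mp hab
            rw [SimpleGraph.sup_adj]
            by_cases h5 : s(a, b) = s(u, x)
            · right
              rw [SimpleGraph.edge_adj]
              refine ⟨?_, h1.ne⟩
              rcases Sym2.eq_iff.mp h5 with ⟨a, b⟩ | ⟨a, b⟩
              · exact Or.inl ⟨a, b⟩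
              · exact Or.inr ⟨a, b⟩
            · left
              rw [Function.update_of_ne h5] at h2
              have h6 : s(a, b) ≠ s(u, v) := by
                intro h6
                rw [h6, Function.update_self] at h2
                exact zero_ne_one h2
              rw [Function.update_of_ne h6] at h2
              exact colourClass_adj.mpr ⟨(hadj a b).mpr ⟨h1, h6⟩, h2⟩
          · refine IsAcyclic.anti ?_ (hw i)
            intro a b hab
            obtain ⟨h1, h2⟩ := colourClass_adj.mp hab
            have h5 : s(a, b) ≠ s(u, x) := by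
              intro h5
              rw [h5, Function.update_self] at h2
              exact hi1 h2.symm
            rw [Function.update_of_ne h5] at h2
            have h6 : s(a, b) ≠ s(u, v) := by
              intro h6
              rw [h6, Function.update_self] at h2
              exact hi0 h2.symm
            rw [Function.update_of_ne h6] at h2
            exact colourClass_adj.mpr ⟨(hadj a b).mpr ⟨h1, h6⟩, h2⟩
    obtain ⟨R, hR⟩ := hr1.symm.exists_isPath
    have hedges : (R.mapLe (colourClass_le G c 1)).edges = R.edges := by simp
    have hcyc : (SimpleGraph.Walk.cons hGux (R.mapLe (colourClass_le G c 1))).IsCycle := by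
      rw [SimpleGraph.Walk.cons_isCycle_iff]
      refine ⟨hR.mapLe _, ?_⟩
      rw [hedges]
      intro hmem
      have := colour_of_mem R hmem
      omega
    refine hsw u _ hcyc s(u, x) ?_ ⟨1, ?_⟩
    · rw [SimpleGraph.Walk.edges_cons]
      exact List.mem_cons_self
    · intro e he hne
      rw [SimpleGraph.Walk.edges_cons, List.mem_cons] at he
      rcases he with he | he
      · exact absurd he hne
      · rw [hedges] at he
        exact colour_of_mem R he

open scoped Classical in
/-- a forest on `n` vertices has at most `n - 1` edges -/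
lemma forest_card {V : Type} [Fintype V] [Nonempty V] (F : SimpleGraph V) (hF : F.IsAcyclic) :
    F.edgeFinset.card + 1 ≤ Fintype.card V := by
  obtain ⟨T, hFT, -, hT⟩ :=
    (SimpleGraph.connected_top (V := V)).exists_isTree_le_of_le_of_isAcyclic le_top hF
  rw [← hT.card_edgeFinset]
  have := Finset.card_le_card (SimpleGraph.edgeFinset_mono hFT)
  omega

open scoped Classical in
/-- a graph of minimum degree at least `2 k` is not a union of `k` forests -/
lemma not_WC {V : Type} [Fintype V] [Nonempty V] {k : ℕ} (hk : 1 ≤ k) (H : SimpleGraph V)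
    (hd : ∀ v, ∃ S : Finset V, 2 * k ≤ S.card ∧ ∀ w ∈ S, H.Adj v w) : ¬ WC k H := by
  rintro ⟨c, hc, hw⟩
  have h1 : H.edgeFinset ⊆ (Finset.range k).biUnion (fun i => (colourClass H c i).edgeFinset) := by
    intro e he
    rw [SimpleGraph.mem_edgeFinset] at he
    rw [Finset.mem_biUnion]
    refine ⟨c e, Finset.mem_range.mpr (hc e he), ?_⟩
    rw [SimpleGraph.mem_edgeFinset]
    induction e using Sym2.ind with
    | _ a b =>
      rw [SimpleGraph.mem_edgeSet] at he ⊢
      exact colourClass_adj.mpr ⟨he, rfl⟩
  have h2 : H.edgeFinset.card ≤ k * (Fintype.card V - 1) := by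
    refine (Finset.card_le_card h1).trans (Finset.card_biUnion_le.trans ?_)
    have h3 : ∑ i ∈ Finset.range k, (colourClass H c i).edgeFinset.card ≤
        ∑ _i ∈ Finset.range k, (Fintype.card V - 1) := by
      refine Finset.sum_le_sum (fun i _ => ?_)
      have := forest_card _ (hw i)
      omega
    rw [Finset.sum_const, Finset.card_range, smul_eq_mul] at h3
    exact h3
  have h4 : 2 * k * Fintype.card V ≤ 2 * H.edgeFinset.card := by
    rw [← SimpleGraph.sum_degrees_eq_twice_card_edges]
    have h5 : ∑ _v : V, 2 * k ≤ ∑ v : V, H.degree v := by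
      refine Finset.sum_le_sum (fun v _ => ?_)
      obtain ⟨S, hS1, hS2⟩ := hd v
      refine hS1.trans ?_
      rw [← SimpleGraph.card_neighborFinset_eq_degree]
      refine Finset.card_le_card (fun w hw => ?_)
      rw [SimpleGraph.mem_neighborFinset]
      exact hS2 w hw
    rw [Finset.sum_const, Finset.card_univ, smul_eq_mul] at h5
    linarith
  have hpos : 0 < Fintype.card V := Fintype.card_pos
  obtain ⟨n, hn⟩ : ∃ n, Fintype.card V = n + 1 := ⟨Fintype.card V - 1, by omega⟩
  rw [hn] at h2 h4
  simp only [Nat.add_sub_cancel] at h2
  nlinarith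

/-- a colouring with pairwise different colours is strongly woody -/
lemma strongly_of_injective {V : Type} (G : SimpleGraph V) (c : Sym2 V → ℕ)
    (hc : Function.Injective c) : IsStronglyWoody G c := by
  rintro v p hp f hf ⟨i, hi⟩
  have hnd := hp.edges_nodup
  have hlen : 3 ≤ p.edges.length := by
    rw [SimpleGraph.Walk.length_edges]
    exact hp.three_le_length
  classical
  have h1 : 2 ≤ (p.edges.toFinset.erase f).card := by
    rw [Finset.card_erase_of_mem (List.mem_toFinset.mpr hf), List.toFinset_card_of_nodup hnd]
    omega
  obtain ⟨a, ha, b, hb, hab⟩ := Finset.one_lt_card.mp h1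
  rw [Finset.mem_erase, List.mem_toFinset] at ha hb
  apply hab
  apply hc
  rw [hi a ha.2 ha.1, hi b hb.2 hb.1]

/-- For every `k ≥ 2` and every `g` there is a finite graph of girth at least `g` with arboricity
exactly `k` and strong arboricity greater than `k`. -/
theorem result (k : ℕ) (hk : 2 ≤ k) (g : ℕ) :
    ∃ (V : Type) (_ : Fintype V) (G : SimpleGraph V),
      (g : ℕ∞) ≤ G.egirth ∧ arb G = k ∧ k < strongArb G := by
  classical
  obtain ⟨V, hV, hne, H0, hdeg, hgirth⟩ := Pool.Agent.H709Exc.girth_graph.{0} (2 * k) g
  have hH0 : ¬ WC k H0 := not_WC (by omega) H0 hdeg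
  -- an edge-minimal subgraph that is not a union of `k` forests
  obtain ⟨H, hHmin⟩ := (Set.toFinite {H : SimpleGraph V | H ≤ H0 ∧ ¬ WC k H}).exists_minimal
    ⟨H0, le_rfl, hH0⟩
  obtain ⟨hHle, hH⟩ := hHmin.prop
  -- it has an edge
  obtain ⟨u, v, huv⟩ : ∃ u v, H.Adj u v := by
    by_contra hcon
    push Not at hcon
    apply hH
    have hbot : H = ⊥ := by
      ext a b
      simp [hcon a b]
    refine ⟨fun _ => 0, fun _ _ => lt_of_lt_of_le Nat.zero_lt_two hk, fun i => ?_⟩
    refine IsAcyclic.anti (colourClass_le H _ i) ?_
    rw [hbot]
    exact SimpleGraph.isAcyclic_bot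
  set G := H.deleteEdges {s(u, v)} with hG
  have hGle : G ≤ H := SimpleGraph.deleteEdges_le _
  have hGWC : WC k G := by
    by_contra hcon
    have h1 := hHmin.le_of_le ⟨hGle.trans hHle, hcon⟩ hGle
    have h2 := h1 huv
    rw [hG, SimpleGraph.deleteEdges_adj] at h2
    exact h2.2 rfl
  refine ⟨V, hV, G, ?_, ?_, ?_⟩
  · rw [SimpleGraph.le_egirth]
    intro a w hw
    have h1 := hgirth a _ (hw.mapLe (hGle.trans hHle))
    rw [SimpleGraph.Walk.length_mapLe] at h1
    exact_mod_cast h1.le
  · apply le_antisymm
    · exact Nat.sInf_le hGWC
    · refine le_csInf ⟨k, hGWC⟩ ?_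
      rintro k' ⟨c, hc, hw⟩
      by_contra hlt
      push Not at hlt
      -- colour the deleted edge with a new colour
      apply hH
      refine ⟨Function.update c s(u, v) k', ?_, ?_⟩
      · intro e he
        by_cases h : e = s(u, v)
        · subst h
          rw [Function.update_self]
          exact hlt
        · rw [Function.update_of_ne h]
          refine lt_trans (hc e ?_) hlt
          rw [hG, SimpleGraph.edgeSet_deleteEdges]
          exact ⟨he, h⟩
      · intro i
        by_cases hi : i = k'
        · subst hi
          refine IsAcyclic.anti ?_ (IsAcyclic.sup_edge_of_not_reachable (G := (⊥ : SimpleGraph V))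
            (u := u) (v := v) ?_ SimpleGraph.isAcyclic_bot)
          · intro a b hab
            obtain ⟨h1, h2⟩ := colourClass_adj.mp hab
            rw [SimpleGraph.sup_adj]
            right
            rw [SimpleGraph.edge_adj]
            refine ⟨?_, h1.ne⟩
            by_cases h : s(a, b) = s(u, v)
            · rcases Sym2.eq_iff.mp h with ⟨a, b⟩ | ⟨a, b⟩
              · exact Or.inl ⟨a, b⟩
              · exact Or.inr ⟨a, b⟩
            · rw [Function.update_of_ne h] at h2
              have h3 := hc s(a, b) (by
                rw [hG, SimpleGraph.edgeSet_deleteEdges]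
                exact ⟨h1, h⟩)
              omega
          · rw [SimpleGraph.reachable_bot]
            exact huv.ne
        · refine IsAcyclic.anti ?_ (hw i)
          intro a b hab
          obtain ⟨h1, h2⟩ := colourClass_adj.mp hab
          have h : s(a, b) ≠ s(u, v) := by
            intro h
            rw [h, Function.update_self] at h2
            exact hi h2.symm
          rw [Function.update_of_ne h] at h2
          refine colourClass_adj.mpr ⟨?_, h2⟩
          rw [hG, SimpleGraph.deleteEdges_adj]
          exact ⟨h1, h⟩
  · rw [← Nat.succ_le_iff]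
    refine le_csInf ?_ ?_
    · obtain ⟨e⟩ : Nonempty (Sym2 V ≃ Fin (Fintype.card (Sym2 V))) :=
        ⟨Fintype.equivFin (Sym2 V)⟩
      refine ⟨Fintype.card (Sym2 V), fun x => (e x : ℕ), fun x _ => (e x).2, ?_⟩
      exact strongly_of_injective G _ (Fin.val_injective.comp e.injective)
    · rintro k' ⟨c, hc, hsw⟩
      by_contra hlt
      refine key hk H hH huv c (fun e he => ?_) hsw
      have := hc e he
      omega

end Pool.Agent.Results.MP_8cd00c_co.LargeGirth
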